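import Pool.Agent.H869R3.UP.Main

/-!
There is no uniform pair of incomparable c.e. degrees over `PA⁻ + BΣ₁`.

For every set `W` defined by a parameter-free `Σ₁` formula, either every c.e. set of the standard
model is reducible to `W(ℕ)`, or there is a model `M` of `PA⁻ + IΔ₀ + exp + BΣ₁` in which `W(M)` is
reducible to every set (see the file on the uniform solution to Post's problem). So two sets
defined by parameter-free `Σ₁` formulas are comparable in some model.
-/

namespace Pool.Agent.Results.MP_0f3b43_lc.NoUniformPair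

open Pool.Agent.Helper626 Pool.Agent.H869R3.UP

/-- For all parameter-free `Σ₁` formulas `φ` and `ψ` (in the language of arithmetic, or in the
language with exponentiation) there is a model `M` of `PA⁻ + IΔ₀ + exp + BΣ₁` in which one of the
sets defined by `φ` and `ψ` is Turing reducible to the other. -/
theorem result : ∀ (e : Bool) (φ ψ : Fml e 1), IsSigma 1 φ → IsSigma 1 ψ →
    ∃ (M : Type) (_ : ArithOps M), PAminusExp M ∧ (∀ e', ISigma e' 0 M ∧ BSigma e' 1 M) ∧
      (TLE e (defSet φ M) (defSet ψ M) ∨ TLE e (defSet ψ M) (defSet φ M)) := by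
  intro e φ ψ hφ hψ
  rcases dichotomy e φ hφ with h | ⟨M, i, h1, h2, h3⟩
  · exact ⟨ℕ, inferInstance, nat_PAminusExp, fun e' => ⟨nat_ISigma e' 0, nat_BSigma e' 1⟩,
      Or.inr (h _ (defSet_sigma ψ hψ ℕ))⟩
  · exact ⟨M, i, h1, h2, Or.inl (h3 _)⟩

end Pool.Agent.Results.MP_0f3b43_lc.NoUniformPair
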