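import Pool.Agent.H869R3.UP.Main

/-!
There is no uniform solution to Post's problem over `PA⁻ + BΣ₁`.

Let `W` be the set defined by a parameter-free `Σ₁` formula. If every c.e. set of the standard
model is reducible to `W(ℕ)`, the standard model is the required one. Otherwise fix a c.e. set `C`
of the standard model which is not reducible to `W(ℕ)`. For a computable function `G` a chain above
`x` is a sequence `x = b_0, b_1, …, b_n` such that each `b_{i+1}` is the time at which some element
of `C` below `x` is enumerated, `b_{i+1} ≥ G(b_i)`, and `W` below `b_i` is settled at `b_{i+1}`.
If the chains of length `n` exist above arbitrarily large `x` and the chains of length `n + 1` do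
not, then `C` is reducible to `W`: after a chain of length `n` which is verified by a finite part of
the complement of `W`, no element of `C` below `x` can be enumerated late. So there are chains of
every length for every `G`. In an ultrapower, chains of increasing lengths for faster and faster
`G` give a cut `M` which is closed under all computable functions, so it is a model of
`PA⁻ + IΔ₀ + exp + BΣ₁`. The standardly indexed elements `b_i` are cofinal in `M`, they are the
enumeration times of the elements of a coded set, and `W(M)` below `b_i` is settled at `b_{i+1}`.
Hence `W(M)` is computable in `M`.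
-/

namespace Pool.Agent.Results.MP_0f3b43_lc.NoUniformPost

open Pool.Agent.Helper626 Pool.Agent.H869R3.UP

/-- For every parameter-free `Σ₁` formula `φ` (in the language of arithmetic, or in the language
with exponentiation) there is a model `M` of `PA⁻ + IΔ₀ + exp + BΣ₁` in which the set defined
by `φ` is computable or every c.e. set is Turing reducible to it. -/
theorem result : ∀ (e : Bool) (φ : Fml e 1), IsSigma 1 φ →
    ∃ (M : Type) (_ : ArithOps M), PAminusExp M ∧ (∀ e', ISigma e' 0 M ∧ BSigma e' 1 M) ∧
      (TLE e (defSet φ M) ∅ ∨ ∀ C : Set M, SigmaDef e 1 C → TLE e C (defSet φ M)) := by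
  intro e φ hφ
  rcases dichotomy e φ hφ with h | ⟨M, i, h1, h2, h3⟩
  · exact ⟨ℕ, inferInstance, nat_PAminusExp, fun e' => ⟨nat_ISigma e' 0, nat_BSigma e' 1⟩,
      Or.inr h⟩
  · exact ⟨M, i, h1, h2, Or.inl (h3 ∅)⟩

end Pool.Agent.Results.MP_0f3b43_lc.NoUniformPost
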